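import Pool.Agent.H431R3.Inv.Pos

set_option autoImplicit false

/-! # From the combinatorial data to operators -/

namespace Pool.Agent.H431R3.Inv

open Pool.Agent.H615R3 Filter Topology ZeroAtInfty

theorem freq_of_task (h : TaskFreq) (𝕜 : Type) [RCLike 𝕜] :
    ∃ T : C₀(ℤ, 𝕜) ≃L[𝕜] C₀(ℤ, 𝕜), Dense {x | IsFRec T x} ∧ ¬ Dense {x | IsFRec T.symm x} := by
  obtain ⟨E, u, D, h1, h2⟩ := h
  exact ⟨TT 𝕜 D, dense_freq D h1, not_dense_freq D h2⟩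

theorem ufreq_of_task (h : TaskUFreq) (𝕜 : Type) [RCLike 𝕜] :
    ∃ T : C₀(ℤ, 𝕜) ≃L[𝕜] C₀(ℤ, 𝕜), Dense {x | IsUFRec T x} ∧ ¬ Dense {x | IsUFRec T.symm x} := by
  obtain ⟨E, u, D, h1, h2⟩ := h
  exact ⟨TT 𝕜 D, dense_ufreq D h1, not_dense_ufreq D h2⟩

end Pool.Agent.H431R3.Inv
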