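import Pool.Agent.H431R3.Inv.Shift

set_option autoImplicit false

/-! # Failure of recurrence for the inverse -/

namespace Pool.Agent.H431R3.Inv

open Pool.Agent.H615R3 Filter Topology ZeroAtInfty Set

noncomputable section

/-- counting ratio -/
def rat (A : Set ℕ) (N : ℕ) : ℝ := ((A ∩ Icc 1 N).ncard : ℝ) / N

lemma rat_le_one (A : Set ℕ) (N : ℕ) : rat A N ≤ 1 := by
  have := ratio_le_one A 0 N
  simpa [rat] using this

lemma rat_nonneg (A : Set ℕ) (N : ℕ) : 0 ≤ rat A N := by unfold rat; positivity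

lemma bdd_le (A : Set ℕ) : IsBoundedUnder (· ≤ ·) atTop (rat A) :=
  isBoundedUnder_of ⟨1, rat_le_one A⟩

lemma bdd_ge (A : Set ℕ) : IsBoundedUnder (· ≥ ·) atTop (rat A) :=
  isBoundedUnder_of ⟨0, rat_nonneg A⟩

lemma rat_le_add {A B : Set ℕ} {n₀ : ℕ} (h : ∀ n ∈ A, n₀ ≤ n → n ∈ B) (N : ℕ) :
    rat A N ≤ rat B N + (n₀ : ℝ) / N := by
  unfold rat
  rw [← add_div]
  refine div_le_div_of_nonneg_right ?_ (Nat.cast_nonneg _)
  have h1 : A ∩ Icc 1 N ⊆ (B ∩ Icc 1 N) ∪ ((Finset.range n₀ : Finset ℕ) : Set ℕ) := by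
    rintro n ⟨hn, hn'⟩
    by_cases h2 : n₀ ≤ n
    · exact Or.inl ⟨h n hn h2, hn'⟩
    · exact Or.inr (by rw [Finset.mem_coe, Finset.mem_range]; omega)
  have h2 : (A ∩ Icc 1 N).ncard ≤ (B ∩ Icc 1 N).ncard + n₀ := by
    calc (A ∩ Icc 1 N).ncard
        ≤ ((B ∩ Icc 1 N) ∪ ((Finset.range n₀ : Finset ℕ) : Set ℕ)).ncard :=
          Set.ncard_le_ncard h1 (((finite_Icc 1 N).subset inter_subset_right).union
            (Finset.finite_toSet _))
      _ ≤ (B ∩ Icc 1 N).ncard + ((Finset.range n₀ : Finset ℕ) : Set ℕ).ncard :=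
          Set.ncard_union_le _ _
      _ = (B ∩ Icc 1 N).ncard + n₀ := by rw [Set.ncard_coe_finset, Finset.card_range]
  exact_mod_cast h2

lemma ev_small (n₀ : ℕ) {ε : ℝ} (hε : 0 < ε) : ∀ᶠ N : ℕ in atTop, (n₀ : ℝ) / N < ε :=
  (tendsto_const_div_atTop_nhds_zero_nat (n₀ : ℝ)).eventually (gt_mem_nhds hε)

lemma lower_le {A B : Set ℕ} {n₀ : ℕ} (h : ∀ n ∈ A, n₀ ≤ n → n ∈ B) :
    lowerDensity A ≤ lowerDensity B := by
  by_contra hc
  rw [not_le] at hc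
  set LA := lowerDensity A with hLA
  set LB := lowerDensity B with hLB
  have h1 : ∀ᶠ N in atTop, LB + 2 * (LA - LB) / 3 < rat A N :=
    eventually_lt_of_lt_liminf (by
      show LB + 2 * (LA - LB) / 3 < lowerDensity A
      rw [← hLA]; linarith) (bdd_ge A)
  have h2 : ∀ᶠ N in atTop, LB + (LA - LB) / 3 ≤ rat B N := by
    filter_upwards [h1, ev_small n₀ (show 0 < (LA - LB) / 3 by linarith)] with N h3 h4
    have := rat_le_add h N
    linarith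
  have h3 : LB + (LA - LB) / 3 ≤ LB := by
    have := le_liminf_of_le (bdd_le B).isCoboundedUnder_ge h2
    exact this
  linarith

lemma upper_le {A B : Set ℕ} {n₀ : ℕ} (h : ∀ n ∈ A, n₀ ≤ n → n ∈ B) :
    upperDensity A ≤ upperDensity B := by
  by_contra hc
  rw [not_le] at hc
  set LA := upperDensity A with hLA
  set LB := upperDensity B with hLB
  have h1 : ∃ᶠ N in atTop, LB + 2 * (LA - LB) / 3 < rat A N :=
    frequently_lt_of_lt_limsup (bdd_ge A).isCoboundedUnder_le (by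
      show LB + 2 * (LA - LB) / 3 < upperDensity A
      rw [← hLA]; linarith)
  have h2 : ∃ᶠ N in atTop, LB + (LA - LB) / 3 ≤ rat B N := by
    refine (h1.and_eventually (ev_small n₀ (show 0 < (LA - LB) / 3 by linarith))).mono ?_
    rintro N ⟨h3, h4⟩
    have := rat_le_add h N
    linarith
  have h3 : LB + (LA - LB) / 3 ≤ LB := le_limsup_of_frequently_le h2 (bdd_le B)
  linarith

variable {E : ℕ → Set ℕ} {u : ℕ → ℕ} {𝕜 : Type} [RCLike 𝕜]

/-- return times of the inverse near `e_0` are deep -/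
lemma deep_of_ret (D : Data E u) {x : C₀(ℤ, 𝕜)} (hx : 3 / 4 ≤ ‖x 0‖) (j : ℕ) :
    ∃ n₀ : ℕ, ∀ n ∈ retSet (TT 𝕜 D).symm x (Metric.ball x (1 / 4)), n₀ ≤ n → n ∈ {k | j ≤ u k} := by
  have h1 : Tendsto (fun n : ℕ => x (-(n : ℤ))) atTop (𝓝 0) := by
    rw [← Nat.cofinite_eq_atTop]
    refine (C0_tendsto x).comp (Function.Injective.tendsto_cofinite ?_)
    intro a b hab
    have : -(a : ℤ) = -(b : ℤ) := hab
    omega
  have h2 : ∀ᶠ n : ℕ in atTop, ‖x (-(n : ℤ))‖ < 1 / 2 / 2 ^ j :=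
    (h1.norm).eventually (gt_mem_nhds (by rw [norm_zero]; positivity))
  obtain ⟨n₀, hn₀⟩ := eventually_atTop.1 h2
  refine ⟨n₀, fun n hn hle => ?_⟩
  obtain ⟨hn1, hn2⟩ := hn
  rw [Metric.mem_ball, dist_eq_norm] at hn2
  have h3 : ‖((cw u (-(n : ℤ)) 0 : ℝ) : 𝕜) * x (0 + -(n : ℤ)) - x 0‖ < 1 / 4 := by
    have := C0_le (((TT 𝕜 D).symm^[n] x) - x) 0
    rw [ZeroAtInftyContinuousMap.sub_apply, TT_symm_iter] at this
    linarith
  rw [zero_add] at h3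
  have h4 : 1 / 2 ≤ ‖((cw u (-(n : ℤ)) 0 : ℝ) : 𝕜) * x (-(n : ℤ))‖ := by
    have := norm_sub_norm_le (x 0) (((cw u (-(n : ℤ)) 0 : ℝ) : 𝕜) * x (-(n : ℤ)))
    rw [norm_sub_rev] at this
    linarith
  rw [norm_mul, RCLike.norm_ofReal, abs_of_pos (cw_pos _ _)] at h4
  have h5 : cw u (-(n : ℤ)) 0 = 2 ^ (u n) := by
    unfold cw
    rw [zero_add, UU_neg (by omega), UU_zero, sub_zero, zpow_natCast]
  rw [h5] at h4
  have h6 := hn₀ n hle
  rw [lt_div_iff₀ (by positivity)] at h6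
  by_contra hcon
  have hlt : u n < j := by
    by_contra h7
    exact hcon (not_lt.1 h7)
  have h7 : (2 : ℝ) ^ u n ≤ 2 ^ j := pow_le_pow_right₀ (by norm_num) hlt.le
  have h8 : (2 : ℝ) ^ u n * ‖x (-(n : ℤ))‖ ≤ 2 ^ j * ‖x (-(n : ℤ))‖ :=
    mul_le_mul_of_nonneg_right h7 (norm_nonneg _)
  linarith

/-- the unit vector `e_0` -/
def e00 (𝕜 : Type) [RCLike 𝕜] : C₀(ℤ, 𝕜) where
  toFun := Pi.single 0 1
  continuous_toFun := continuous_of_discreteTopology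
  zero_at_infty' := by
    rw [Filter.cocompact_eq_cofinite]
    refine tendsto_const_nhds.congr' ?_
    have h : ∀ᶠ k : ℤ in cofinite, k ≠ 0 := by
      rw [Filter.eventually_cofinite]
      refine (Set.finite_singleton (0 : ℤ)).subset ?_
      intro k hk
      simpa using hk
    filter_upwards [h] with n hn
    rw [Pi.single_eq_of_ne hn]

lemma e00_zero : e00 𝕜 0 = 1 := by
  change (Pi.single 0 1 : ℤ → 𝕜) 0 = _
  rw [Pi.single_eq_same]

lemma near {x : C₀(ℤ, 𝕜)} (hx : x ∈ Metric.ball (e00 𝕜) (1 / 4)) : 3 / 4 ≤ ‖x 0‖ := by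
  rw [Metric.mem_ball, dist_eq_norm] at hx
  have h1 := C0_le (x - e00 𝕜) 0
  rw [ZeroAtInftyContinuousMap.sub_apply, e00_zero] at h1
  have h2 := norm_sub_norm_le (1 : 𝕜) (x 0)
  rw [norm_sub_rev, norm_one] at h2
  linarith

theorem not_dense_freq (D : Data E u)
    (h : ∀ δ : ℝ, 0 < δ → ∃ j, lowerDensity {k | j ≤ u k} < δ) :
    ¬ Dense {x | IsFRec (TT 𝕜 D).symm x} := by
  intro hd
  obtain ⟨x, hrec, hx⟩ := hd.exists_mem_open Metric.isOpen_ball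
    ⟨e00 𝕜, Metric.mem_ball_self (by norm_num : (0:ℝ) < 1 / 4)⟩
  have h1 := hrec _ (Metric.ball_mem_nhds x (by norm_num : (0:ℝ) < 1 / 4))
  obtain ⟨j, hj⟩ := h _ h1
  obtain ⟨n₀, hn₀⟩ := deep_of_ret D (near hx) j
  exact absurd (lower_le hn₀) (not_le.2 hj)

theorem not_dense_ufreq (D : Data E u)
    (h : ∀ δ : ℝ, 0 < δ → ∃ j, upperDensity {k | j ≤ u k} < δ) :
    ¬ Dense {x | IsUFRec (TT 𝕜 D).symm x} := by
  intro hd
  obtain ⟨x, hrec, hx⟩ := hd.exists_mem_open Metric.isOpen_ball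
    ⟨e00 𝕜, Metric.mem_ball_self (by norm_num : (0:ℝ) < 1 / 4)⟩
  have h1 := hrec _ (Metric.ball_mem_nhds x (by norm_num : (0:ℝ) < 1 / 4))
  obtain ⟨j, hj⟩ := h _ h1
  obtain ⟨n₀, hn₀⟩ := deep_of_ret D (near hx) j
  exact absurd (upper_le hn₀) (not_le.2 hj)

end

end Pool.Agent.H431R3.Inv
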