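import Pool.Agent.H431R3.Inv.Neg

set_option autoImplicit false

/-! # Recurrence of the shift -/

namespace Pool.Agent.H431R3.Inv

open Pool.Agent.H615R3 Filter Topology ZeroAtInfty Set

noncomputable section

variable {E : ℕ → Set ℕ} {u : ℕ → ℕ} {𝕜 : Type} [RCLike 𝕜]

open Classical in
/-- the self-copying sequence -/
def Zf (E : ℕ → Set ℕ) (hE : ∀ a, ∀ n ∈ E a, 2 * a < n) (J : ℕ) (z0 : ℤ → 𝕜) (k : ℤ) : 𝕜 :=
  if h : ∃ q : ℕ × ℕ, J ≤ q.1 ∧ q.2 ∈ E q.1 ∧ |k - (q.2 : ℤ)| ≤ (q.1 : ℤ) then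
    Zf E hE J z0 (k - (h.choose.2 : ℤ))
  else z0 k
termination_by k.natAbs
decreasing_by
  obtain ⟨h1, h2, h3⟩ := h.choose_spec
  have := hE _ _ h2
  rw [abs_le] at h3
  omega

lemma Zf_not (hE : ∀ a, ∀ n ∈ E a, 2 * a < n) (J : ℕ) (z0 : ℤ → 𝕜) (k : ℤ)
    (h : ¬ ∃ q : ℕ × ℕ, J ≤ q.1 ∧ q.2 ∈ E q.1 ∧ |k - (q.2 : ℤ)| ≤ (q.1 : ℤ)) :
    Zf E hE J z0 k = z0 k := by
  rw [Zf, dif_neg h]

lemma Zf_low (hE : ∀ a, ∀ n ∈ E a, 2 * a < n) (J : ℕ) (z0 : ℤ → 𝕜) (k : ℤ) (hk : k ≤ J) :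
    Zf E hE J z0 k = z0 k := by
  refine Zf_not hE J z0 k ?_
  rintro ⟨q, h1, h2, h3⟩
  have := hE _ _ h2
  rw [abs_le] at h3
  omega

lemma Zf_bound (hE : ∀ a, ∀ n ∈ E a, 2 * a < n) (J : ℕ) (z0 : ℤ → 𝕜) {Y : ℝ}
    (hY : ∀ k, ‖z0 k‖ ≤ Y) : ∀ (N : ℕ) (k : ℤ), k.natAbs ≤ N → ‖Zf E hE J z0 k‖ ≤ Y := by
  intro N
  induction N with
  | zero =>
    intro k hk
    rw [Zf_low hE J z0 k (by omega)]
    exact hY k
  | succ N ih =>
    intro k hk
    by_cases h : ∃ q : ℕ × ℕ, J ≤ q.1 ∧ q.2 ∈ E q.1 ∧ |k - (q.2 : ℤ)| ≤ (q.1 : ℤ)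
    · rw [Zf, dif_pos h]
      obtain ⟨h1, h2, h3⟩ := h.choose_spec
      have := hE _ _ h2
      rw [abs_le] at h3
      exact ih _ (by omega)
    · rw [Zf_not hE J z0 k h]
      exact hY k

lemma Zf_le (hE : ∀ a, ∀ n ∈ E a, 2 * a < n) (J : ℕ) (z0 : ℤ → 𝕜) {Y : ℝ}
    (hY : ∀ k, ‖z0 k‖ ≤ Y) (k : ℤ) : ‖Zf E hE J z0 k‖ ≤ Y :=
  Zf_bound hE J z0 hY _ k le_rfl

lemma Zf_copy (D : Data E u) (J : ℕ) (z0 : ℤ → 𝕜) {a n : ℕ} (ha : J ≤ a) (hn : n ∈ E a) {k : ℤ}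
    (hk : |k| ≤ a) : Zf E D.start J z0 (k + n) = Zf E D.start J z0 k := by
  have h : ∃ q : ℕ × ℕ, J ≤ q.1 ∧ q.2 ∈ E q.1 ∧ |(k + n) - (q.2 : ℤ)| ≤ (q.1 : ℤ) :=
    ⟨(a, n), ha, hn, by simpa using hk⟩
  obtain ⟨h1, h2, h3⟩ := h.choose_spec
  have he : h.choose.2 = n := by
    rw [abs_le] at h3 hk
    rcases lt_trichotomy h.choose.2 n with h4 | h4 | h4
    · have := D.sep _ _ _ h2 _ hn h4
      omega
    · exact h4
    · have := D.sep _ _ _ hn _ h2 h4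
      omega
  conv_lhs => rw [Zf, dif_pos h]
  rw [he, add_sub_cancel_right]

lemma Zf_zero_or (hE : ∀ a, ∀ n ∈ E a, 2 * a < n) (J : ℕ) (z0 : ℤ → 𝕜) (k : ℤ) :
    Zf E hE J z0 k = z0 k ∨ ∃ a n : ℕ, J ≤ a ∧ n ∈ E a ∧ |k - (n : ℤ)| ≤ (a : ℤ) := by
  by_cases h : ∃ q : ℕ × ℕ, J ≤ q.1 ∧ q.2 ∈ E q.1 ∧ |k - (q.2 : ℤ)| ≤ (q.1 : ℤ)
  · obtain ⟨q, h1, h2, h3⟩ := h
    exact Or.inr ⟨q.1, q.2, h1, h2, h3⟩
  · exact Or.inl (Zf_not hE J z0 k h)

/-- the vector with coordinates `2^(-U k) Z k` -/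
def xv (D : Data E u) (J : ℕ) (z0 : ℤ → 𝕜) {Y : ℝ} (hY : ∀ k, ‖z0 k‖ ≤ Y) {p : ℕ} (hp : p ≤ J)
    (hz : ∀ k : ℤ, (p : ℤ) < |k| → z0 k = 0) : C₀(ℤ, 𝕜) where
  toFun := fun k => (((2 : ℝ) ^ (-UU u k) : ℝ) : 𝕜) * Zf E D.start J z0 k
  continuous_toFun := continuous_of_discreteTopology
  zero_at_infty' := by
    rw [Filter.cocompact_eq_cofinite, Metric.tendsto_nhds]
    intro ε hε
    have hY0 : 0 ≤ Y := (norm_nonneg _).trans (hY 0)
    obtain ⟨K, hK⟩ : ∃ K : ℕ, Y * (1 / 2) ^ K < ε := by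
      have h1 : Tendsto (fun K : ℕ => Y * (1 / 2 : ℝ) ^ K) atTop (𝓝 (Y * 0)) :=
        (tendsto_pow_atTop_nhds_zero_of_lt_one (by norm_num) (by norm_num)).const_mul Y
      rw [mul_zero] at h1
      exact (h1.eventually (gt_mem_nhds hε)).exists
    rw [Filter.eventually_cofinite]
    refine (Set.finite_Icc (-(p : ℤ)) (K : ℤ)).subset ?_
    intro k hk
    rw [Set.mem_ofPred_eq, dist_zero_right, not_lt] at hk
    by_contra hcon
    rw [Set.mem_Icc, not_and_or, not_le, not_le] at hcon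
    rcases hcon with h | h
    · rw [Zf_low D.start J z0 k (by omega), hz k (by rw [abs_of_neg (by omega)]; omega), mul_zero,
        norm_zero] at hk
      linarith
    · have h1 : ‖(((2 : ℝ) ^ (-UU u k) : ℝ) : 𝕜) * Zf E D.start J z0 k‖ ≤ Y * (1 / 2) ^ K := by
        rw [norm_mul, RCLike.norm_ofReal, abs_of_pos (by positivity), mul_comm]
        refine mul_le_mul (Zf_le D.start J z0 hY k) ?_ (by positivity) hY0
        rw [UU_nonneg_of (by omega)]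
        have h2 : (1 / 2 : ℝ) ^ K = (2 : ℝ) ^ (-(K : ℤ)) := by
          rw [zpow_neg, zpow_natCast, one_div, inv_pow]
        rw [h2]
        exact zpow_le_zpow_right₀ (by norm_num) (by omega)
      linarith

variable (D : Data E u) (J : ℕ) (z0 : ℤ → 𝕜) {Y : ℝ} (hY : ∀ k, ‖z0 k‖ ≤ Y) {p : ℕ} (hp : p ≤ J)
    (hz : ∀ k : ℤ, (p : ℤ) < |k| → z0 k = 0)

lemma xv_apply (k : ℤ) : xv D J z0 hY hp hz k =
    (((2 : ℝ) ^ (-UU u k) : ℝ) : 𝕜) * Zf E D.start J z0 k := rfl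

lemma xv_iter (n : ℕ) (k : ℤ) : ((TT 𝕜 D)^[n] (xv D J z0 hY hp hz)) k =
    (((2 : ℝ) ^ (-UU u k) : ℝ) : 𝕜) * Zf E D.start J z0 (k + n) := by
  rw [TT_iter, xv_apply, ← mul_assoc, ← RCLike.ofReal_mul]
  congr 2
  unfold cw
  rw [← zpow_add₀ (by norm_num)]
  congr 1
  ring

lemma xv_ret {a n : ℕ} (ha : J ≤ a) (hn : n ∈ E a) :
    ‖(TT 𝕜 D)^[n] (xv D J z0 hY hp hz) - xv D J z0 hY hp hz‖ ≤ 2 * Y * (1 / 2) ^ a := by
  have hY0 : 0 ≤ Y := (norm_nonneg _).trans (hY 0)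
  refine C0_norm_le (by positivity) fun k => ?_
  rw [ZeroAtInftyContinuousMap.sub_apply, xv_iter, xv_apply, ← mul_sub, norm_mul,
    RCLike.norm_ofReal, abs_of_pos (by positivity)]
  have hz1 : (1 / 2 : ℝ) ^ a = (2 : ℝ) ^ (-(a : ℤ)) := by
    rw [zpow_neg, zpow_natCast, one_div, inv_pow]
  have hdiff : ‖Zf E D.start J z0 (k + n) - Zf E D.start J z0 k‖ ≤ 2 * Y := by
    refine (norm_sub_le _ _).trans ?_
    have h1 := Zf_le D.start J z0 hY (k + n)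
    have h2 := Zf_le D.start J z0 hY k
    linarith
  by_cases hzero : Zf E D.start J z0 (k + n) = Zf E D.start J z0 k
  · rw [hzero, sub_self, norm_zero, mul_zero]
    positivity
  have hU : (a : ℤ) ≤ UU u k := by
    by_cases h1 : |k| ≤ (a : ℤ)
    · exact absurd (Zf_copy D J z0 ha hn h1) hzero
    rw [abs_le, not_and_or, not_le, not_le] at h1
    rcases h1 with h1 | h1
    · -- k < -a
      have h2 : Zf E D.start J z0 k = 0 := by
        rw [Zf_low D.start J z0 k (by omega), hz k (by rw [abs_of_neg (by omega)]; omega)]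
      rw [h2] at hzero
      obtain ⟨k', rfl⟩ : ∃ k' : ℕ, k = -(k' : ℤ) := ⟨k.natAbs, by omega⟩
      rw [UU_neg (by omega)]
      rcases Zf_zero_or D.start J z0 (-(k' : ℤ) + n) with h3 | ⟨b, m, hb, hm, h3⟩
      · have h4 : |(-(k' : ℤ) + n)| ≤ (p : ℤ) := by
          by_contra h5
          exact hzero (h3.trans (hz _ (not_le.1 h5)))
        rw [abs_le] at h4
        have := D.deep0 a n hn k' (by omega) (by omega)
        exact_mod_cast this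
      · rcases lt_trichotomy m n with h4 | h4 | h4
        · rw [abs_le] at h3
          have := D.deep a b n hn m hm h4 k' (by omega) (by omega)
          exact_mod_cast this
        · exfalso
          subst h4
          have h5 : |(-(k' : ℤ))| ≤ (b : ℤ) := by
            rw [add_sub_cancel_right] at h3
            exact h3
          exact hzero ((Zf_copy D J z0 hb hm h5).trans h2)
        · exfalso
          have := D.sep _ _ _ hn _ hm h4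
          rw [abs_le] at h3
          omega
    · rw [UU_nonneg_of (by omega)]
      omega
  rw [hz1, mul_comm]
  refine mul_le_mul hdiff ?_ (by positivity) (by positivity)
  exact zpow_le_zpow_right₀ (by norm_num) (by omega)

/-- approximation of arbitrary vectors -/
lemma exists_xv (D : Data E u) (y : C₀(ℤ, 𝕜)) {ε : ℝ} (hε : 0 < ε) :
    ∃ (x : C₀(ℤ, 𝕜)) (J : ℕ) (Y : ℝ), 0 ≤ Y ∧ ‖x - y‖ < ε ∧
      ∀ a n : ℕ, J ≤ a → n ∈ E a → ‖(TT 𝕜 D)^[n] x - x‖ ≤ 2 * Y * (1 / 2) ^ a := by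
  -- cut-off
  obtain ⟨p, hp⟩ : ∃ p : ℕ, ∀ k : ℤ, (p : ℤ) < |k| → ‖y k‖ < ε / 4 := by
    have h1 := (C0_tendsto y).norm.eventually
      (gt_mem_nhds (show ‖(0 : 𝕜)‖ < ε / 4 by rw [norm_zero]; positivity))
    rw [Filter.eventually_cofinite] at h1
    refine ⟨h1.toFinset.sum fun k => k.natAbs, fun k hk => ?_⟩
    by_contra hcon
    have hmem : k ∈ h1.toFinset := by
      rw [Set.Finite.mem_toFinset]
      exact hcon
    have h2 : k.natAbs ≤ h1.toFinset.sum fun k => k.natAbs :=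
      Finset.single_le_sum (f := fun k : ℤ => k.natAbs) (fun _ _ => Nat.zero_le _) hmem
    rw [← Int.natCast_natAbs] at hk
    omega
  set z0 : ℤ → 𝕜 := fun k => if |k| ≤ (p : ℤ) then (((2 : ℝ) ^ (UU u k) : ℝ) : 𝕜) * y k else 0
    with hz0
  have hz : ∀ k : ℤ, (p : ℤ) < |k| → z0 k = 0 := fun k hk => by
    rw [hz0]; exact if_neg (not_le.2 hk)
  set Y : ℝ := ∑ k ∈ Finset.Icc (-(p : ℤ)) p, ‖z0 k‖ with hYdef
  have hY : ∀ k, ‖z0 k‖ ≤ Y := by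
    intro k
    by_cases h : |k| ≤ (p : ℤ)
    · exact Finset.single_le_sum (f := fun k : ℤ => ‖z0 k‖) (fun _ _ => norm_nonneg _)
        (Finset.mem_Icc.2 (abs_le.1 h))
    · rw [hz k (not_le.1 h), norm_zero]
      exact Finset.sum_nonneg fun _ _ => norm_nonneg _
  have hY0 : 0 ≤ Y := (norm_nonneg _).trans (hY 0)
  obtain ⟨K, hK⟩ : ∃ K : ℕ, Y * (1 / 2) ^ K < ε / 4 := by
    have h1 : Tendsto (fun K : ℕ => Y * (1 / 2 : ℝ) ^ K) atTop (𝓝 (Y * 0)) :=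
      (tendsto_pow_atTop_nhds_zero_of_lt_one (by norm_num) (by norm_num)).const_mul Y
    rw [mul_zero] at h1
    exact (h1.eventually (gt_mem_nhds (show 0 < ε / 4 by positivity))).exists
  refine ⟨xv D (max p K) z0 hY (le_max_left _ _) hz, max p K, Y, hY0, ?_, fun a n ha hn =>
    xv_ret D _ z0 hY _ hz ha hn⟩
  refine lt_of_le_of_lt (C0_norm_le (C := ε / 2) (by positivity) fun k => ?_) (by linarith)
  rw [ZeroAtInftyContinuousMap.sub_apply, xv_apply]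
  by_cases h1 : |k| ≤ (p : ℤ)
  · rw [Zf_low D.start _ z0 k (by
      have := (abs_le.1 h1).2
      have h2 : (p : ℤ) ≤ (max p K : ℕ) := by exact_mod_cast le_max_left p K
      omega)]
    have h3 : z0 k = (((2 : ℝ) ^ (UU u k) : ℝ) : 𝕜) * y k := by
      rw [hz0]; exact if_pos h1
    rw [h3, ← mul_assoc, ← RCLike.ofReal_mul, ← zpow_add₀ (by norm_num), neg_add_cancel, zpow_zero,
      RCLike.ofReal_one, one_mul, sub_self, norm_zero]
    positivity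
  · rw [not_le] at h1
    have h2 := hp k h1
    have h3 : ‖(((2 : ℝ) ^ (-UU u k) : ℝ) : 𝕜) * Zf E D.start (max p K) z0 k‖ ≤ ε / 4 := by
      rcases Zf_zero_or D.start (max p K) z0 k with h4 | ⟨b, m, hb, hm, h4⟩
      · rw [h4, hz k h1, mul_zero, norm_zero]; positivity
      · have h5 := D.start b m hm
        rw [abs_le] at h4
        have h6 : (K : ℤ) ≤ b := by
          have : K ≤ b := (le_max_right p K).trans hb
          exact_mod_cast this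
        rw [norm_mul, RCLike.norm_ofReal, abs_of_pos (by positivity), mul_comm]
        refine le_trans (mul_le_mul (Zf_le D.start _ z0 hY k) ?_ (by positivity) hY0) hK.le
        rw [UU_nonneg_of (by omega)]
        have h7 : (1 / 2 : ℝ) ^ K = (2 : ℝ) ^ (-(K : ℤ)) := by
          rw [zpow_neg, zpow_natCast, one_div, inv_pow]
        rw [h7]
        exact zpow_le_zpow_right₀ (by norm_num) (by omega)
    refine (norm_sub_le _ _).trans ?_
    linarith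

/-- return sets contain `E a` for large `a` -/
lemma ret_sub (D : Data E u) {x : C₀(ℤ, 𝕜)} {J : ℕ} {Y : ℝ} (hY : 0 ≤ Y)
    (h : ∀ a n : ℕ, J ≤ a → n ∈ E a → ‖(TT 𝕜 D)^[n] x - x‖ ≤ 2 * Y * (1 / 2) ^ a)
    {V : Set C₀(ℤ, 𝕜)} (hV : V ∈ 𝓝 x) : ∃ a, 1 ≤ a ∧ ∀ n ∈ E a, n ∈ retSet (TT 𝕜 D) x V := by
  obtain ⟨η, hη, hsub⟩ := Metric.mem_nhds_iff.1 hV
  obtain ⟨K, hK⟩ : ∃ K : ℕ, 2 * Y * (1 / 2) ^ K < η := by
    have h1 : Tendsto (fun K : ℕ => 2 * Y * (1 / 2 : ℝ) ^ K) atTop (𝓝 (2 * Y * 0)) :=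
      (tendsto_pow_atTop_nhds_zero_of_lt_one (by norm_num) (by norm_num)).const_mul (2 * Y)
    rw [mul_zero] at h1
    exact (h1.eventually (gt_mem_nhds hη)).exists
  refine ⟨max (max J K) 1, le_max_right _ _, fun n hn => ⟨?_, hsub ?_⟩⟩
  · have := D.start _ _ hn
    omega
  · rw [Metric.mem_ball, dist_eq_norm]
    refine lt_of_le_of_lt (h _ n ((le_max_left _ _).trans (le_max_left _ _)) hn) ?_
    refine lt_of_le_of_lt (mul_le_mul_of_nonneg_left ?_ (by positivity)) hK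
    exact pow_le_pow_of_le_one (by norm_num) (by norm_num)
      ((le_max_right _ _).trans (le_max_left _ _))

theorem dense_freq (D : Data E u) (h : ∀ a, 1 ≤ a → 0 < lowerDensity (E a)) :
    Dense {x | IsFRec (TT 𝕜 D) x} := by
  rw [Metric.dense_iff]
  intro y ε hε
  obtain ⟨x, J, Y, hY, hxy, hret⟩ := exists_xv D y hε
  refine ⟨x, by rw [Metric.mem_ball, dist_eq_norm]; exact hxy, fun V hV => ?_⟩
  obtain ⟨a, ha, hsub⟩ := ret_sub D hY hret hV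
  exact lt_of_lt_of_le (h a ha) (lower_le (n₀ := 0) fun n hn _ => hsub n hn)

theorem dense_ufreq (D : Data E u) (h : ∀ a, 1 ≤ a → 0 < upperDensity (E a)) :
    Dense {x | IsUFRec (TT 𝕜 D) x} := by
  rw [Metric.dense_iff]
  intro y ε hε
  obtain ⟨x, J, Y, hY, hxy, hret⟩ := exists_xv D y hε
  refine ⟨x, by rw [Metric.mem_ball, dist_eq_norm]; exact hxy, fun V hV => ?_⟩
  obtain ⟨a, ha, hsub⟩ := ret_sub D hY hret hV
  exact lt_of_lt_of_le (h a ha) (upper_le (n₀ := 0) fun n hn _ => hsub n hn)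

end

end Pool.Agent.H431R3.Inv
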