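import Pool.Agent.H431R3.Inv.Stmts

set_option autoImplicit false

/-! # The weighted shift on `c_0(ℤ)` -/

namespace Pool.Agent.H431R3.Inv

open Pool.Agent.H615R3 Filter Topology ZeroAtInfty

noncomputable section

section basics

variable {𝕜 : Type} [RCLike 𝕜]

lemma C0_le (z : C₀(ℤ, 𝕜)) (n : ℤ) : ‖z n‖ ≤ ‖z‖ := z.toBCF.norm_coe_le_norm n

lemma C0_norm_le {z : C₀(ℤ, 𝕜)} {C : ℝ} (hC : 0 ≤ C) (h : ∀ n, ‖z n‖ ≤ C) : ‖z‖ ≤ C :=
  (BoundedContinuousFunction.norm_le hC).2 h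

lemma C0_tendsto (z : C₀(ℤ, 𝕜)) : Tendsto (fun n => z n) cofinite (𝓝 0) := by
  have h := z.zero_at_infty'
  rwa [Filter.cocompact_eq_cofinite] at h

variable (𝕜) in
/-- weighted translation -/
def wsh (c : ℤ → ℝ) (hc : ∀ k, |c k| ≤ 2) (s : ℤ) : C₀(ℤ, 𝕜) →L[𝕜] C₀(ℤ, 𝕜) :=
  LinearMap.mkContinuous
    { toFun := fun x =>
        { toFun := fun k => ((c k : ℝ) : 𝕜) * x (k + s)
          continuous_toFun := continuous_of_discreteTopology
          zero_at_infty' := by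
            rw [Filter.cocompact_eq_cofinite]
            have h1 : Tendsto (fun k : ℤ => x (k + s)) cofinite (𝓝 0) :=
              (C0_tendsto x).comp ((add_left_injective s).tendsto_cofinite)
            have h2 : Tendsto (fun k : ℤ => 2 * ‖x (k + s)‖) cofinite (𝓝 0) := by
              have := h1.norm.const_mul 2
              simpa using this
            refine squeeze_zero_norm (fun k => ?_) h2
            rw [norm_mul, RCLike.norm_ofReal]
            exact mul_le_mul_of_nonneg_right (hc k) (norm_nonneg _) }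
      map_add' := fun x y => by
        ext k
        change _ * (x (k + s) + y (k + s)) = _ * x (k + s) + _ * y (k + s)
        ring
      map_smul' := fun a x => by
        ext k
        change _ * (a * x (k + s)) = a * (_ * x (k + s))
        ring } 2 (fun x => by
      refine C0_norm_le (by positivity) fun k => ?_
      change ‖((c k : ℝ) : 𝕜) * x (k + s)‖ ≤ _
      rw [norm_mul, RCLike.norm_ofReal]
      exact mul_le_mul (hc k) (C0_le x _) (norm_nonneg _) (by norm_num))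

lemma wsh_apply (c : ℤ → ℝ) (hc : ∀ k, |c k| ≤ 2) (s : ℤ) (x : C₀(ℤ, 𝕜)) (k : ℤ) :
    wsh 𝕜 c hc s x k = ((c k : ℝ) : 𝕜) * x (k + s) := rfl

end basics

/-- extension of the depth function to `ℤ` -/
def UU (u : ℕ → ℕ) (k : ℤ) : ℤ := if 0 ≤ k then k else (u k.natAbs : ℤ)

variable {E : ℕ → Set ℕ} {u : ℕ → ℕ}

lemma UU_nonneg_of {k : ℤ} (hk : 0 ≤ k) : UU u k = k := if_pos hk

lemma UU_neg {n : ℕ} (hn : 0 < n) : UU u (-(n : ℤ)) = u n := by
  unfold UU
  rw [if_neg (by omega)]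
  simp

lemma UU_zero : UU u 0 = 0 := if_pos le_rfl

lemma UU_nonneg (k : ℤ) : 0 ≤ UU u k := by
  unfold UU
  split_ifs with h
  · exact h
  · positivity

lemma UU_step (D : Data E u) (k : ℤ) : UU u (k + 1) - UU u k ≤ 1 ∧ -1 ≤ UU u (k + 1) - UU u k := by
  rcases lt_trichotomy k (-1) with h | h | h
  · obtain ⟨n, rfl⟩ : ∃ n : ℕ, k = -((n : ℤ) + 1 + 1) := ⟨(-k - 2).toNat, by omega⟩
    have e1 : UU u (-((n : ℤ) + 1 + 1)) = u (n + 1 + 1) := by
      have := UU_neg (u := u) (n := n + 1 + 1) (by omega)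
      push_cast at this ⊢
      exact this
    have e2 : UU u (-((n : ℤ) + 1 + 1) + 1) = u (n + 1) := by
      have := UU_neg (u := u) (n := n + 1) (by omega)
      have e : -((n : ℤ) + 1 + 1) + 1 = -((n + 1 : ℕ) : ℤ) := by push_cast; ring
      rw [e]
      exact this
    rw [e1, e2]
    have h1 := D.lip1 (n + 1)
    have h2 := D.lip2 (n + 1)
    omega
  · subst h
    have e1 : UU u (-1) = u 1 := by
      have := UU_neg (u := u) (n := 1) (by omega)
      simpa using this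
    have e2 : UU u (-1 + 1) = 0 := UU_zero
    rw [e1, e2]
    have h1 := D.lip1 0
    have h0 := D.zero
    simp only [zero_add] at h1
    omega
  · rw [UU_nonneg_of (by omega), UU_nonneg_of (by omega)]
    omega

/-- weights of the shift -/
def cw (u : ℕ → ℕ) (s : ℤ) (k : ℤ) : ℝ := (2 : ℝ) ^ (UU u (k + s) - UU u k)

lemma cw_pos (s k : ℤ) : 0 < cw u s k := by unfold cw; positivity

lemma cw_one_le (D : Data E u) (k : ℤ) : |cw u 1 k| ≤ 2 := by
  rw [abs_of_pos (cw_pos _ _)]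
  unfold cw
  calc (2 : ℝ) ^ (UU u (k + 1) - UU u k) ≤ (2 : ℝ) ^ (1 : ℤ) :=
        zpow_le_zpow_right₀ (by norm_num) (UU_step D k).1
    _ = 2 := by norm_num

lemma cw_neg_one_le (D : Data E u) (k : ℤ) : |cw u (-1) k| ≤ 2 := by
  rw [abs_of_pos (cw_pos _ _)]
  unfold cw
  have h := (UU_step D (k + -1)).2
  rw [neg_add_cancel_right] at h
  calc (2 : ℝ) ^ (UU u (k + -1) - UU u k) ≤ (2 : ℝ) ^ (1 : ℤ) :=
        zpow_le_zpow_right₀ (by norm_num) (by linarith)
    _ = 2 := by norm_num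

lemma cw_mul (s t k : ℤ) : cw u s k * cw u t (k + s) = cw u (s + t) k := by
  unfold cw
  rw [← zpow_add₀ (by norm_num)]
  congr 1
  rw [← add_assoc]
  ring

lemma cw_zero (k : ℤ) : cw u 0 k = 1 := by
  unfold cw
  rw [add_zero, sub_self, zpow_zero]

variable (𝕜 : Type) [RCLike 𝕜]

/-- the operator -/
def TT (D : Data E u) : C₀(ℤ, 𝕜) ≃L[𝕜] C₀(ℤ, 𝕜) :=
  ContinuousLinearEquiv.equivOfInverse (wsh 𝕜 (cw u 1) (cw_one_le D) 1)
    (wsh 𝕜 (cw u (-1)) (cw_neg_one_le D) (-1))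
    (fun x => by
      ext k
      rw [wsh_apply, wsh_apply, ← mul_assoc, ← RCLike.ofReal_mul, cw_mul, neg_add_cancel, cw_zero,
        RCLike.ofReal_one, one_mul, neg_add_cancel_right])
    (fun x => by
      ext k
      rw [wsh_apply, wsh_apply, ← mul_assoc, ← RCLike.ofReal_mul, cw_mul, add_neg_cancel, cw_zero,
        RCLike.ofReal_one, one_mul, add_neg_cancel_right])

variable {𝕜}

lemma TT_apply (D : Data E u) (x : C₀(ℤ, 𝕜)) (k : ℤ) :
    TT 𝕜 D x k = ((cw u 1 k : ℝ) : 𝕜) * x (k + 1) := rfl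

lemma TT_symm_apply (D : Data E u) (x : C₀(ℤ, 𝕜)) (k : ℤ) :
    (TT 𝕜 D).symm x k = ((cw u (-1) k : ℝ) : 𝕜) * x (k + -1) := rfl

lemma TT_iter (D : Data E u) (n : ℕ) (x : C₀(ℤ, 𝕜)) (k : ℤ) :
    ((TT 𝕜 D)^[n] x) k = ((cw u n k : ℝ) : 𝕜) * x (k + n) := by
  induction n generalizing k with
  | zero =>
    rw [Function.iterate_zero, id]
    simp [cw_zero]
  | succ n ih =>
    rw [Function.iterate_succ_apply', TT_apply, ih, ← mul_assoc, ← RCLike.ofReal_mul, cw_mul]
    push_cast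
    rw [add_comm (1 : ℤ) n, add_assoc, add_comm (1 : ℤ) n]

lemma TT_symm_iter (D : Data E u) (n : ℕ) (x : C₀(ℤ, 𝕜)) (k : ℤ) :
    ((TT 𝕜 D).symm^[n] x) k = ((cw u (-(n : ℤ)) k : ℝ) : 𝕜) * x (k + -(n : ℤ)) := by
  induction n generalizing k with
  | zero =>
    rw [Function.iterate_zero, id]
    simp [cw_zero]
  | succ n ih =>
    rw [Function.iterate_succ_apply', TT_symm_apply, ih, ← mul_assoc, ← RCLike.ofReal_mul, cw_mul]
    have e : (-1 : ℤ) + -(n : ℤ) = -((n + 1 : ℕ) : ℤ) := by push_cast; ring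
    rw [e, add_assoc, e]

end

end Pool.Agent.H431R3.Inv
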