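import Pool.Agent.H615R3.RecDefs

set_option autoImplicit false

/-! # Frequent recurrence does not pass to the inverse: combinatorial data and statements -/

namespace Pool.Agent.H431R3.Inv

open Pool.Agent.H615R3 Filter Topology

/-- combinatorial data: `E a` = return times with precision `2^(-a)`, `u k` = depth of the weight at
`-k`. -/
structure Data (E : ℕ → Set ℕ) (u : ℕ → ℕ) : Prop where
  zero : u 0 = 0
  lip1 : ∀ k, u (k + 1) ≤ u k + 1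
  lip2 : ∀ k, u k ≤ u (k + 1) + 1
  start : ∀ a, ∀ n ∈ E a, 2 * a < n
  sep : ∀ a b, ∀ n ∈ E a, ∀ m ∈ E b, n < m → n + a + b < m
  deep0 : ∀ a, ∀ n ∈ E a, ∀ k : ℕ, n ≤ k + a → k ≤ n + a → a ≤ u k
  deep : ∀ a b, ∀ n ∈ E a, ∀ m ∈ E b, m < n → ∀ k : ℕ, n ≤ k + m + b → k + m ≤ n + b → a ≤ u k

/-- COMBINATORIAL TASK 1 -/
def TaskFreq : Prop := ∃ (E : ℕ → Set ℕ) (u : ℕ → ℕ), Data E u ∧
  (∀ a, 1 ≤ a → 0 < lowerDensity (E a)) ∧ ∀ δ : ℝ, 0 < δ → ∃ j, lowerDensity {k | j ≤ u k} < δ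

/-- COMBINATORIAL TASK 2 -/
def TaskUFreq : Prop := ∃ (E : ℕ → Set ℕ) (u : ℕ → ℕ), Data E u ∧
  (∀ a, 1 ≤ a → 0 < upperDensity (E a)) ∧ ∀ δ : ℝ, 0 < δ → ∃ j, upperDensity {k | j ≤ u k} < δ

end Pool.Agent.H431R3.Inv
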